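import Pool.Agent.Helper93.KN.St
import Pool.Agent.Helper9.SU.M_ALL

/-!
# Project KN, module SIEVE: upper bound sieve in one variable
-/

set_option autoImplicit false

namespace Pool.Agent.Helper66.KN

open Finset ArithmeticFunction Pool.Agent.Helper93.KN
open Pool.Agent.Helper60.GP (IsB JJ II Err)

private theorem exp_le_SV (r l : ℕ) (hr : r ≤ 2) (hl : 5 ≤ l) :
    Real.exp ((r : ℝ) / l) ≤ 1 + 4 / (l : ℝ) := by
  have hl5 : (5 : ℝ) ≤ l := by exact_mod_cast hl
  have hl0 : (0 : ℝ) < l := by linarith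
  have hr2 : (r : ℝ) ≤ 2 := by exact_mod_cast hr
  have h1 : (r : ℝ) / l ≤ 2 / l := div_le_div_of_nonneg_right hr2 hl0.le
  have h2 : (2 : ℝ) / l ≤ 1 := by
    rw [div_le_one hl0]; linarith
  have h3 : (0 : ℝ) ≤ 2 / l := by positivity
  have h4 := Real.abs_exp_sub_one_le (x := (2 : ℝ) / l) (by rw [abs_of_nonneg h3]; exact h2)
  rw [abs_of_nonneg h3] at h4
  have h5 := (abs_le.1 h4).2
  have h6 : Real.exp ((r : ℝ) / l) ≤ Real.exp (2 / l) := Real.exp_le_exp.2 h1
  have h7 : 2 * ((2 : ℝ) / l) = 4 / l := by ring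
  rw [h7] at h5
  linarith

private theorem one_le_ff_SV (E : ℕ) : 1 ≤ ff E := by
  unfold ff
  refine Finset.one_le_prod ?_
  intro l _
  have : (0 : ℝ) ≤ 4 / (l : ℝ) := by positivity
  linarith

/-- the product of the local factors -/
private theorem prod_SV (w r E : ℕ) (hr : r ≤ 2) (hE : E ≠ 0) (S : ℕ → Finset ℕ)
    (hS : ∀ l : ℕ, l.Prime → 5 ≤ l →
      (∀ s ∈ S l, s < l) ∧ (S l).card ≤ r ∧ (¬ l ∣ E → (S l).card = r)) :
    ∏ l ∈ (Icc 5 w).filter Nat.Prime, (1 - ((S l).card : ℝ) / l) ≤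
      Real.exp (-((r : ℝ) * ∑ l ∈ (Icc 5 w).filter Nat.Prime, (1 : ℝ) / l)) * ff E := by
  set Q : Finset ℕ := (Icc 5 w).filter Nat.Prime with hQ
  have hQp : ∀ l ∈ Q, l.Prime ∧ 5 ≤ l := by
    intro l hl
    rw [hQ, mem_filter, mem_Icc] at hl
    exact ⟨hl.2, hl.1.1⟩
  have h1 : ∏ l ∈ Q, (1 - ((S l).card : ℝ) / l) ≤
      ∏ l ∈ Q, (Real.exp (-((r : ℝ) * (1 / l))) * (if l ∣ E then (1 + 4 / (l : ℝ)) else 1)) := by
    refine prod_le_prod ?_ ?_
    · intro l hl
      obtain ⟨hp, h5⟩ := hQp l hl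
      have hc := (hS l hp h5).2.1
      have hl5 : (5 : ℝ) ≤ l := by exact_mod_cast h5
      have hc2 : ((S l).card : ℝ) ≤ 2 := by exact_mod_cast hc.trans hr
      have h6 : ((S l).card : ℝ) / l ≤ 1 := by
        rw [div_le_one (by linarith)]
        linarith
      linarith
    · intro l hl
      obtain ⟨hp, h5⟩ := hQp l hl
      have hc := (hS l hp h5).2.1
      have hl5 : (5 : ℝ) ≤ l := by exact_mod_cast h5
      have hl0 : (0 : ℝ) < l := by linarith
      by_cases hd : l ∣ E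
      · rw [if_pos hd]
        have h6 : 1 - ((S l).card : ℝ) / l ≤ 1 := by
          have : (0 : ℝ) ≤ ((S l).card : ℝ) / l := by positivity
          linarith
        have h7 := exp_le_SV r l hr h5
        have h8 : Real.exp (-((r : ℝ) * (1 / l))) * Real.exp ((r : ℝ) / l) = 1 := by
          rw [← Real.exp_add]
          have : -((r : ℝ) * (1 / l)) + (r : ℝ) / l = 0 := by ring
          rw [this, Real.exp_zero]
        calc 1 - ((S l).card : ℝ) / l ≤ 1 := h6
          _ = Real.exp (-((r : ℝ) * (1 / l))) * Real.exp ((r : ℝ) / l) := h8.symm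
          _ ≤ _ := mul_le_mul_of_nonneg_left h7 (Real.exp_pos _).le
      · rw [if_neg hd, mul_one]
        have hcr := (hS l hp h5).2.2 hd
        rw [hcr]
        have h6 := Real.add_one_le_exp (-((r : ℝ) * (1 / l)))
        have h7 : (r : ℝ) * (1 / l) = (r : ℝ) / l := by ring
        rw [h7] at h6 ⊢
        linarith
  refine h1.trans ?_
  rw [prod_mul_distrib, ← Real.exp_sum]
  have h2 : ∑ l ∈ Q, -((r : ℝ) * (1 / (l : ℝ))) = -((r : ℝ) * ∑ l ∈ Q, (1 : ℝ) / l) := by
    rw [sum_neg_distrib, mul_sum]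
  rw [h2]
  refine mul_le_mul_of_nonneg_left ?_ (Real.exp_pos _).le
  rw [← prod_filter]
  unfold ff
  refine prod_le_prod_of_subset_of_one_le ?_ ?_ ?_
  · intro l hl
    rw [mem_filter] at hl
    exact Nat.mem_primeFactors.2 ⟨(hQp l hl.1).1, hl.2, hE⟩
  · intro l _
    positivity
  · intro l _ _
    have : (0 : ℝ) ≤ 4 / (l : ℝ) := by positivity
    linarith

/-- Mertens for the primes from `5` to `w` -/
private theorem mert_SV (C : ℝ) (hM : ∀ y : ℝ, 3 ≤ y →
    |∑ l ∈ (Icc 1 ⌊y⌋₊).filter Nat.Prime, (1 : ℝ) / l - Real.log (Real.log y)| ≤ C) (w : ℕ)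
    (hw : 5 ≤ w) : Real.log (Real.log w) - (C + 1) ≤
      ∑ l ∈ (Icc 5 w).filter Nat.Prime, (1 : ℝ) / l := by
  have hw5 : (5 : ℝ) ≤ w := by exact_mod_cast hw
  have h1 := hM w (by linarith)
  rw [Nat.floor_natCast] at h1
  have h2 := (abs_le.1 h1).1
  have h3 : ∑ l ∈ (Icc 1 w).filter Nat.Prime, (1 : ℝ) / l ≤
      ∑ l ∈ (Icc 5 w).filter Nat.Prime ∪ {2, 3}, (1 : ℝ) / l := by
    refine sum_le_sum_of_subset_of_nonneg ?_ (fun l _ _ => by positivity)
    intro l hl
    rw [mem_filter, mem_Icc] at hl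
    rw [mem_union, mem_filter, mem_Icc]
    by_cases h5 : 5 ≤ l
    · exact Or.inl ⟨⟨h5, hl.1.2⟩, hl.2⟩
    · right
      have h4 := hl.2.two_le
      have h6 : l = 2 ∨ l = 3 ∨ l = 4 := by omega
      rcases h6 with rfl | rfl | rfl
      · simp
      · simp
      · exact absurd hl.2 (by norm_num)
  have h4 : ∑ l ∈ (Icc 5 w).filter Nat.Prime ∪ {2, 3}, (1 : ℝ) / l =
      ∑ l ∈ (Icc 5 w).filter Nat.Prime, (1 : ℝ) / l + ∑ l ∈ ({2, 3} : Finset ℕ), (1 : ℝ) / l := by
    refine sum_union ?_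
    rw [Finset.disjoint_left]
    intro l hl h6
    rw [mem_filter, mem_Icc] at hl
    simp at h6
    omega
  have h5 : ∑ l ∈ ({2, 3} : Finset ℕ), (1 : ℝ) / l ≤ 1 := by
    rw [sum_pair (by norm_num)]
    norm_num
  linarith

open Classical in
theorem hSieve (hFL : Pool.Agent.Helper18.TR.StFL) (hM : Pool.Agent.Helper15.AB.StMT) :
    StSieve := by
  intro r hr1 hr2
  obtain ⟨B, hB⟩ := hFL r 1 (by exact_mod_cast hr1) (by norm_num)
  obtain ⟨CM, hCM0, hCM⟩ := hM
  set δ : ℝ := 1 / (4 * (B : ℝ) + 8) with hδ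
  have hB0 : (0 : ℝ) ≤ B := Nat.cast_nonneg B
  have hδ0 : 0 < δ := by rw [hδ]; positivity
  have hδ8 : δ ≤ 1 / 8 := by
    rw [hδ]
    exact one_div_le_one_div_of_le (by norm_num) (by linarith)
  have hδB : δ * (2 * B) ≤ 1 / 2 := by
    rw [hδ, one_div, inv_mul_le_iff₀ (by positivity)]
    linarith
  set L0 : ℝ := Real.log 6 / δ with hL0
  have hL00 : 0 < L0 := by
    rw [hL0]
    exact div_pos (Real.log_pos (by norm_num)) hδ0
  set K1 : ℝ := Real.exp (r * (CM + 1)) * (2 / δ) ^ r with hK1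
  have hK10 : 0 < K1 := by rw [hK1]; positivity
  refine ⟨2 * K1 + 16 + L0 ^ r, δ, by positivity, hδ0, by linarith, ?_⟩
  intro N hN S E hE hS
  have hN2 : (2 : ℝ) ≤ N := by exact_mod_cast hN
  have hN0 : (0 : ℝ) < N := by linarith
  have hlog : 0 < Real.log N := Real.log_pos (by linarith)
  have hlogr : 0 < Real.log N ^ r := pow_pos hlog r
  have hff := one_le_ff_SV E
  have hq0 : 0 < (N : ℝ) / Real.log N ^ r := div_pos hN0 hlogr
  -- it is enough to bound without the factor in some cases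
  have hfac : ∀ c : ℝ, 0 ≤ c → c * (N / Real.log N ^ r) ≤ c * (N / Real.log N ^ r) * ff E := by
    intro c hc
    have h1 : 0 ≤ c * (N / Real.log N ^ r) := by positivity
    nlinarith
  by_cases hsm : (N : ℝ) ^ δ < 6
  · -- small `N`
    have h1 : Real.log N < L0 := by
      have h2 := Real.log_lt_log (by positivity) hsm
      rw [Real.log_rpow hN0] at h2
      rw [hL0, lt_div_iff₀ hδ0]
      linarith
    have h2 : Real.log N ^ r ≤ L0 ^ r := pow_le_pow_left₀ hlog.le h1.le r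
    have h3 : (N : ℝ) ≤ L0 ^ r * (N / Real.log N ^ r) := by
      rw [mul_div_assoc', le_div_iff₀ hlogr]
      nlinarith
    have h4 : (((Icc 1 N).filter (fun n : ℕ => ∀ l : ℕ, l.Prime → 5 ≤ l →
        (l : ℝ) ≤ (N : ℝ) ^ δ → n % l ∉ S l)).card : ℝ) ≤ N := by
      have h5 := card_filter_le (Icc 1 N) (fun n : ℕ => ∀ l : ℕ, l.Prime → 5 ≤ l →
        (l : ℝ) ≤ (N : ℝ) ^ δ → n % l ∉ S l)
      rw [Nat.card_Icc] at h5
      exact_mod_cast (by omega : _ ≤ N)
    calc _ ≤ (N : ℝ) := h4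
      _ ≤ L0 ^ r * (N / Real.log N ^ r) := h3
      _ ≤ (2 * K1 + 16 + L0 ^ r) * (N / Real.log N ^ r) := by
          refine mul_le_mul_of_nonneg_right ?_ hq0.le
          linarith
      _ ≤ _ := hfac _ (by positivity)
  · push Not at hsm
    set w : ℕ := ⌊(N : ℝ) ^ δ⌋₊ with hw
    have hwle : (w : ℝ) ≤ (N : ℝ) ^ δ := Nat.floor_le (by positivity)
    have hwlt : (N : ℝ) ^ δ < w + 1 := Nat.lt_floor_add_one _
    have hw5 : 5 ≤ w := by
      have : (5 : ℝ) < w + 0 := by linarith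
      have h6 : (5 : ℝ) < w := by linarith
      exact_mod_cast h6.le
    have hw5R : (5 : ℝ) ≤ w := by exact_mod_cast hw5
    -- `log w`
    have hhalf : (N : ℝ) ^ (δ / 2) ≤ w := by
      have h1 : (N : ℝ) ^ δ = (N : ℝ) ^ (δ / 2) * (N : ℝ) ^ (δ / 2) := by
        rw [← Real.rpow_add hN0]
        congr 1
        ring
      have h2 : 0 < (N : ℝ) ^ (δ / 2) := by positivity
      have h3 : 2 ≤ (N : ℝ) ^ (δ / 2) := by
        by_contra h
        push Not at h
        nlinarith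
      nlinarith
    have hlogw : δ / 2 * Real.log N ≤ Real.log w := by
      have h1 := Real.log_le_log (by positivity) hhalf
      rwa [Real.log_rpow hN0] at h1
    have hlogw0 : 0 < Real.log w := Real.log_pos (by linarith)
    set Q : Finset ℕ := (Icc 5 w).filter Nat.Prime with hQ
    have hQp : ∀ l ∈ Q, l.Prime ∧ 5 ≤ l ∧ l ≤ w := by
      intro l hl
      rw [hQ, mem_filter, mem_Icc] at hl
      exact ⟨hl.2, hl.1.1, hl.1.2⟩
    set g : ℕ → ℝ := fun l => ((S l).card : ℝ) / l with hg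
    have hfin := hB w (by omega) Q (fun p hp => ⟨(hQp p hp).1, (hQp p hp).2.2⟩) g (by
        intro l hl
        obtain ⟨hp, h5, _⟩ := hQp l hl
        have hc := (hS l hp h5).2.1
        have hcR : ((S l).card : ℝ) ≤ r := by exact_mod_cast hc
        have hr2R : (r : ℝ) ≤ 2 := by exact_mod_cast hr2
        have h1 : (5 : ℝ) ≤ l := by exact_mod_cast h5
        refine ⟨by rw [hg]; positivity, ?_, ?_⟩
        · rw [hg]
          exact div_le_div_of_nonneg_right hcR (by linarith)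
        · rw [hg]
          show ((S l).card : ℝ) / l ≤ 1 / 2
          rw [div_le_div_iff₀ (by linarith) (by norm_num)]
          linarith) ℕ (Icc 1 N)
      (fun l n => n % l ∈ S l) (N : ℝ) ((w : ℝ) ^ B) hN0.le
      (by positivity) (by
        intro T hT hTw
        have h1 := Pool.Agent.Helper9.SU.cntT_ALL 0 N S T (by
          intro l hl
          exact ⟨(hQp l (hT hl)).1, (hS l (hQp l (hT hl)).1 (hQp l (hT hl)).2.1).1⟩) 1 0 le_rfl
          (fun l _ => Nat.coprime_one_right l)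
        have h2 : (Ioc 0 (0 + N)).filter (fun e => e % 1 = 0 % 1 ∧ ∀ l ∈ T, e % l ∈ S l) =
            (Icc 1 N).filter (fun e => ∀ l ∈ T, e % l ∈ S l) := by
          ext e
          simp only [mem_filter, mem_Ioc, mem_Icc, Nat.mod_one, true_and]
          constructor
          · rintro ⟨h3, h4⟩
            exact ⟨by omega, h4⟩
          · rintro ⟨h3, h4⟩
            exact ⟨by omega, h4⟩
        rw [h2, Nat.cast_one, div_one] at h1
        have h1' : |(((Icc 1 N).filter (fun e => ∀ l ∈ T, e % l ∈ S l)).card : ℝ) -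
            (N : ℝ) * ∏ l ∈ T, g l| ≤ ∏ l ∈ T, ((S l).card : ℝ) := by convert h1 using 1
        refine le_trans (by convert h1' using 1) ?_
        calc ∏ l ∈ T, ((S l).card : ℝ) ≤ ∏ l ∈ T, (l : ℝ) := by
              refine prod_le_prod (fun _ _ => Nat.cast_nonneg _) ?_
              intro l hl
              have h5 := (hQp l (hT hl)).2.1
              have h2 := (hS l (hQp l (hT hl)).1 h5).2.1
              exact_mod_cast (by omega : (S l).card ≤ l)
          _ = ((∏ l ∈ T, l : ℕ) : ℝ) := by push_cast; rfl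
          _ ≤ ((w ^ B : ℕ) : ℝ) := by exact_mod_cast hTw
          _ = (w : ℝ) ^ B := by push_cast; rfl)
    set PP : ℝ := ∏ p ∈ Q, (1 - g p) with hPP
    have hub : (((Icc 1 N).filter (fun n : ℕ => ∀ l ∈ Q, ¬ n % l ∈ S l)).card : ℝ) ≤
        2 * (N * PP) + (w : ℝ) ^ B * (w : ℝ) ^ B := by
      have h5 := (abs_le.1 hfin).2
      have h6 : (((Icc 1 N).filter (fun n : ℕ => ∀ l ∈ Q, ¬ n % l ∈ S l)).card : ℝ) - N * PP ≤
        1 * (N * PP) + (w : ℝ) ^ B * (w : ℝ) ^ B := by convert h5 using 1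
      linarith
    have hsub : (((Icc 1 N).filter (fun n : ℕ => ∀ l : ℕ, l.Prime → 5 ≤ l →
        (l : ℝ) ≤ (N : ℝ) ^ δ → n % l ∉ S l)).card : ℝ) ≤
        (((Icc 1 N).filter (fun n : ℕ => ∀ l ∈ Q, ¬ n % l ∈ S l)).card : ℝ) := by
      have h7 : (Icc 1 N).filter (fun n : ℕ => ∀ l : ℕ, l.Prime → 5 ≤ l →
        (l : ℝ) ≤ (N : ℝ) ^ δ → n % l ∉ S l) ⊆
          (Icc 1 N).filter (fun n : ℕ => ∀ l ∈ Q, ¬ n % l ∈ S l) := by
        intro n hn
        rw [mem_filter] at hn ⊢
        refine ⟨hn.1, fun l hl => ?_⟩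
        obtain ⟨hp, h5, hlw⟩ := hQp l hl
        refine hn.2 l hp h5 ?_
        have h8 : (l : ℝ) ≤ w := by exact_mod_cast hlw
        linarith
      exact_mod_cast card_le_card h7
    -- the product
    have hPPle : PP ≤ K1 / Real.log N ^ r * ff E := by
      have h1 := prod_SV w r E hr2 hE S hS
      refine h1.trans (mul_le_mul_of_nonneg_right ?_ (by linarith))
      have h2 := mert_SV CM hCM w hw5
      have hr0 : (0 : ℝ) ≤ r := Nat.cast_nonneg r
      have h3 : -((r : ℝ) * ∑ l ∈ (Icc 5 w).filter Nat.Prime, (1 : ℝ) / l) ≤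
          r * (CM + 1) + r * (-Real.log (Real.log w)) := by
        have := mul_le_mul_of_nonneg_left h2 hr0
        linarith
      calc Real.exp (-((r : ℝ) * ∑ l ∈ (Icc 5 w).filter Nat.Prime, (1 : ℝ) / l)) ≤
            Real.exp (r * (CM + 1) + r * (-Real.log (Real.log w))) := Real.exp_le_exp.2 h3
        _ = Real.exp (r * (CM + 1)) * (Real.log w)⁻¹ ^ r := by
            rw [Real.exp_add]
            congr 1
            rw [Real.exp_nat_mul, Real.exp_neg, Real.exp_log hlogw0]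
        _ ≤ Real.exp (r * (CM + 1)) * (δ / 2 * Real.log N)⁻¹ ^ r := by
            refine mul_le_mul_of_nonneg_left ?_ (Real.exp_pos _).le
            refine pow_le_pow_left₀ (inv_nonneg.2 hlogw0.le) ?_ r
            exact inv_anti₀ (by positivity) hlogw
        _ = K1 / Real.log N ^ r := by
            rw [hK1, mul_inv, mul_pow, inv_div, inv_pow (Real.log N)]
            ring
    -- the error
    have herr : (w : ℝ) ^ B * (w : ℝ) ^ B ≤ 16 * (N / Real.log N ^ r) := by
      have h1 : (w : ℝ) ^ B * (w : ℝ) ^ B ≤ (N : ℝ) ^ (1 / 2 : ℝ) := by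
        calc (w : ℝ) ^ B * (w : ℝ) ^ B = (w : ℝ) ^ (2 * B) := by ring
          _ ≤ ((N : ℝ) ^ δ) ^ (2 * B) := pow_le_pow_left₀ (by positivity) hwle _
          _ = (N : ℝ) ^ (δ * (2 * B)) := by
              rw [← Real.rpow_natCast, ← Real.rpow_mul hN0.le]
              push_cast
              rfl
          _ ≤ (N : ℝ) ^ (1 / 2 : ℝ) := Real.rpow_le_rpow_of_exponent_le (by linarith) hδB
      have h2 : Real.log N ≤ 4 * (N : ℝ) ^ (1 / 4 : ℝ) := by
        have h3 := Real.log_le_rpow_div hN0.le (ε := 1 / 4) (by norm_num)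
        linarith
      have h4 : (N : ℝ) ^ (1 / 2 : ℝ) = (N : ℝ) ^ (1 / 4 : ℝ) * (N : ℝ) ^ (1 / 4 : ℝ) := by
        rw [← Real.rpow_add hN0]
        norm_num
      have h5 : (N : ℝ) = (N : ℝ) ^ (1 / 2 : ℝ) * (N : ℝ) ^ (1 / 2 : ℝ) := by
        rw [← Real.rpow_add hN0]
        norm_num
      have h6 : 1 ≤ (N : ℝ) ^ (1 / 4 : ℝ) := Real.one_le_rpow (by linarith) (by norm_num)
      have h7 : Real.log N ^ r ≤ 16 * (N : ℝ) ^ (1 / 2 : ℝ) := by
        rw [h4]
        have h8 : r = 1 ∨ r = 2 := by omega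
        rcases h8 with rfl | rfl
        · rw [pow_one]
          nlinarith
        · nlinarith
      refine h1.trans ?_
      rw [mul_div_assoc', le_div_iff₀ hlogr]
      have h9 : 0 < (N : ℝ) ^ (1 / 2 : ℝ) := by positivity
      calc (N : ℝ) ^ (1 / 2 : ℝ) * Real.log N ^ r ≤
            (N : ℝ) ^ (1 / 2 : ℝ) * (16 * (N : ℝ) ^ (1 / 2 : ℝ)) :=
            mul_le_mul_of_nonneg_left h7 h9.le
        _ = 16 * ((N : ℝ) ^ (1 / 2 : ℝ) * (N : ℝ) ^ (1 / 2 : ℝ)) := by ring
        _ = 16 * (N : ℝ) := by rw [← h5]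
    have hmain : 2 * (N * PP) ≤ 2 * K1 * (N / Real.log N ^ r) * ff E := by
      have h1 : N * PP ≤ N * (K1 / Real.log N ^ r * ff E) :=
        mul_le_mul_of_nonneg_left hPPle hN0.le
      calc 2 * (N * PP) ≤ 2 * (N * (K1 / Real.log N ^ r * ff E)) := by linarith
        _ = 2 * K1 * (N / Real.log N ^ r) * ff E := by ring
    have herr' : (w : ℝ) ^ B * (w : ℝ) ^ B ≤ 16 * (N / Real.log N ^ r) * ff E :=
      herr.trans (hfac 16 (by norm_num))
    have hL' : 0 ≤ L0 ^ r * (N / Real.log N ^ r) * ff E := by positivity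
    calc _ ≤ _ := hsub
      _ ≤ _ := hub
      _ ≤ 2 * K1 * (N / Real.log N ^ r) * ff E + 16 * (N / Real.log N ^ r) * ff E := by
          linarith
      _ ≤ (2 * K1 + 16 + L0 ^ r) * (N / Real.log N ^ r) * ff E := by
          nlinarith

end Pool.Agent.Helper66.KN
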